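import Pool.Agent.H921R2.TatePole.Gram

/-!
# Primes in residue classes of order two with a degree one prime in a given number field
-/

set_option linter.unusedSectionVars false

open Filter Topology NumberField IsDedekindDomain Polynomial
open scoped TensorProduct

namespace Pool.Agent.H916L

open Pool.Agent.H921R2.TatePole

lemma Lam_top : Tendsto Lam (𝓝[>] 1) atTop := by
  unfold Lam
  apply Real.tendsto_log_atTop.comp
  have h1 : Tendsto (fun x : ℝ => x - 1) (𝓝[>] 1) (𝓝[>] 0) := by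
    rw [tendsto_nhdsWithin_iff]
    constructor
    · have : Tendsto (fun x : ℝ => x - 1) (𝓝 1) (𝓝 (1 - 1)) := tendsto_id.sub_const 1
      simpa using this.mono_left nhdsWithin_le_nhds
    · filter_upwards [self_mem_nhdsWithin] with x hx
      exact sub_pos.mpr (Set.mem_Ioi.mp hx)
  have h2 := tendsto_inv_nhdsGT_zero (𝕜 := ℝ)
  refine (h2.comp h1).congr fun x => ?_
  simp

lemma rk_pos (K L : Type) [Field K] [NumberField K] [Field L] [NumberField L] : 1 ≤ rk K L := by
  unfold rk
  have : Nontrivial (K ⊗[ℚ] L) := inferInstance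
  have : Nonempty (MaximalSpectrum (K ⊗[ℚ] L)) := inferInstance
  exact Nat.one_le_iff_ne_zero.mpr (Nat.card_pos.ne')

lemma prod_abs (K L : Type) [Field K] [NumberField K] [Field L] [NumberField L] (p : Nat.Primes) :
    |(R K p : ℝ) * (R L p : ℝ)| ≤ Module.finrank ℚ K * Module.finrank ℚ L := by
  rw [abs_mul]
  exact mul_le_mul (R_abs p) (R_abs p) (abs_nonneg _) (by positivity)

lemma core {K A B : Type} [Field K] [NumberField K] [Field A] [NumberField A] [Field B]
    [NumberField B] (hKA : rk K A = 1) (N0 : ℕ)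
    (h : ∀ p : Nat.Primes, N0 < (p : ℕ) → 2 * (R K p * R B p) ≤ R K p * R A p) : False := by
  classical
  obtain ⟨C1, hC1⟩ := prod_bdd K A
  obtain ⟨C2, hC2⟩ := prod_bdd K B
  set g : Nat.Primes → ℝ := fun p => if N0 < (p : ℕ) then 0 else
    2 * ((R K p : ℝ) * (R B p : ℝ)) with hg
  have hgb : ∀ p, |g p| ≤ 2 * (Module.finrank ℚ K * Module.finrank ℚ B) := by
    intro p
    simp only [hg]
    split_ifs
    · rw [abs_zero]; positivity
    · rw [abs_mul, abs_of_nonneg (by norm_num : (0 : ℝ) ≤ 2)]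
      exact mul_le_mul_of_nonneg_left (prod_abs K B p) (by norm_num)
  obtain ⟨C3, hC3⟩ := finite_support_bdd hgb (M := N0.factorial) (Nat.factorial_ne_zero _) (by
    intro p hp
    simp only [hg]
    rw [if_pos]
    by_contra hle
    push Not at hle
    exact hp ((p.prop.dvd_factorial).mpr hle))
  have hbig := Lam_top.eventually_gt_atTop (C1 + 2 * C2 + C3)
  obtain ⟨x, ⟨⟨⟨h1, h2⟩, h3⟩, h4⟩, hx1⟩ :=
    ((((hC1.and hC2).and hC3).and hbig).and self_mem_nhdsWithin).exists
  have hx : 1 < x := hx1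
  have hs1 : Summable (fun p : Nat.Primes => ((R K p : ℝ) * (R A p : ℝ)) * w x p) :=
    bddmul_summable hx (prod_abs K A)
  have hs2 : Summable (fun p : Nat.Primes => ((R K p : ℝ) * (R B p : ℝ)) * w x p) :=
    bddmul_summable hx (prod_abs K B)
  have hs3 : Summable (fun p : Nat.Primes => g p * w x p) := bddmul_summable hx hgb
  have hle : 2 * ∑' p : Nat.Primes, ((R K p : ℝ) * (R B p : ℝ)) * w x p ≤
      ∑' p : Nat.Primes, ((R K p : ℝ) * (R A p : ℝ)) * w x p + ∑' p : Nat.Primes, g p * w x p := by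
    rw [← tsum_mul_left, ← Summable.tsum_add hs1 hs3]
    refine Summable.tsum_le_tsum (fun p => ?_) (hs2.mul_left 2) (hs1.add hs3)
    have hw := w_nonneg x p
    have hA0 : (0 : ℝ) ≤ (R K p : ℝ) * (R A p : ℝ) := by positivity
    simp only [hg]
    split_ifs with hp
    · have h5 : 2 * ((R K p : ℝ) * (R B p : ℝ)) ≤ (R K p : ℝ) * (R A p : ℝ) := by
        exact_mod_cast h p hp
      nlinarith
    · nlinarith
  have hrk : (1 : ℝ) ≤ (rk K B : ℝ) := by exact_mod_cast rk_pos K B
  rw [hKA] at h1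
  have k1 := abs_le.mp h1
  have k2 := abs_le.mp h2
  have k3 := abs_le.mp h3
  push_cast at k1
  have hL : 0 ≤ Lam x := by
    have := abs_nonneg (∑' p : Nat.Primes, ((R K p : ℝ) * (R A p : ℝ)) * w x p - ((1 : ℕ) : ℝ) * Lam x)
    have e1 : 0 ≤ C1 := this.trans (by simpa using h1)
    have e2 : 0 ≤ C2 := (abs_nonneg _).trans h2
    have e3 : 0 ≤ C3 := (abs_nonneg _).trans h3
    linarith
  have h6 : Lam x ≤ (rk K B : ℝ) * Lam x := le_mul_of_one_le_left hL hrk
  linarith [k1.1, k1.2, k2.1, k2.2, k3.1, k3.2]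

lemma core_one {K A : Type} [Field K] [NumberField K] [Field A] [NumberField A] (N0 : ℕ)
    (h : ∀ p : Nat.Primes, N0 < (p : ℕ) → R K p * R A p = 0) : False := by
  classical
  obtain ⟨C1, hC1⟩ := prod_bdd K A
  obtain ⟨C3, hC3⟩ := finite_support_bdd (prod_abs K A) (M := N0.factorial)
    (Nat.factorial_ne_zero _) (by
      intro p hp
      have := h p (by
        by_contra hle
        push Not at hle
        exact hp ((p.prop.dvd_factorial).mpr hle))
      exact_mod_cast this)
  have hbig := Lam_top.eventually_gt_atTop (C1 + C3)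
  obtain ⟨x, ⟨⟨h1, h3⟩, h4⟩⟩ := ((hC1.and hC3).and hbig).exists
  have hrk : (1 : ℝ) ≤ (rk K A : ℝ) := by exact_mod_cast rk_pos K A
  have e1 : 0 ≤ C1 := (abs_nonneg _).trans h1
  have e3 : 0 ≤ C3 := (abs_nonneg _).trans h3
  have hL : 0 ≤ Lam x := by linarith
  have h6 : Lam x ≤ (rk K A : ℝ) * Lam x := le_mul_of_one_le_left hL hrk
  have k1 := abs_le.mp h1
  have k3 := abs_le.mp h3
  linarith [k1.1, k1.2, k3.1, k3.2]

/-- reduction of primitive roots of unity -/
lemma prim_map {A F : Type*} [CommRing A] [IsDomain A] [Field F] (φ : A →+* F) {n : ℕ}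
    [NeZero n] (hA : (n : A) ≠ 0) (hn : (n : F) ≠ 0) {z : A} (hz : IsPrimitiveRoot z n) :
    IsPrimitiveRoot (φ z) n := by
  have : NeZero ((n : ℕ) : A) := ⟨hA⟩
  have : NeZero ((n : ℕ) : F) := ⟨hn⟩
  rw [← isRoot_cyclotomic_iff] at hz ⊢
  rw [← map_cyclotomic n φ, IsRoot.def, eval_map, eval₂_hom, hz.eq_zero, map_zero]

section
variable {n : ℕ} [NeZero n]

local instance : IsCyclotomicExtension {n} ℚ (CyclotomicField n ℚ) :=
  CyclotomicField.isCyclotomicExtension n ℚ

local instance : NumberField (CyclotomicField n ℚ) := IsCyclotomicExtension.numberField {n} ℚ _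

lemma nat_ne_zero_ring (K : Type) [Field K] [NumberField K] : ((n : ℕ) : 𝓞 K) ≠ 0 := by
  exact_mod_cast NeZero.ne n

lemma cast_ne_zero_of_not_dvd {p : ℕ} (h : ¬ p ∣ n) : ((n : ℕ) : ZMod p) ≠ 0 := by
  rwa [Ne, ZMod.natCast_eq_zero_iff]

/-- degree one primes of the cyclotomic field -/
lemma mod_one_of_R {p : Nat.Primes} (hp : ¬ (p : ℕ) ∣ n) (h : R (CyclotomicField n ℚ) p ≠ 0) :
    ((p : ℕ) : ZMod n) = 1 := by
  have : Fact (p : ℕ).Prime := ⟨p.prop⟩
  rw [R_eq_hc] at h
  unfold hc at h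
  obtain ⟨φ⟩ : Nonempty (𝓞 (CyclotomicField n ℚ) →+* ZMod (p : ℕ)) := by
    by_contra hne
    rw [not_nonempty_iff] at hne
    exact h Nat.card_of_isEmpty
  have hζ := (IsCyclotomicExtension.zeta_spec n ℚ (CyclotomicField n ℚ))
  have h1 := prim_map φ (nat_ne_zero_ring _) (cast_ne_zero_of_not_dvd hp)
    hζ.toInteger_isPrimitiveRoot
  have h2 : n ∣ (p : ℕ) - 1 := by
    apply h1.dvd_of_pow_eq_one
    apply ZMod.pow_card_sub_one_eq_one
    exact h1.ne_zero (NeZero.ne n)
  have h3 : (((p : ℕ) - 1 : ℕ) : ZMod n) = 0 := (ZMod.natCast_eq_zero_iff _ _).mpr h2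
  rw [Nat.cast_sub p.prop.one_lt.le, Nat.cast_one] at h3
  exact sub_eq_zero.mp h3

/-- the number of degree one primes above `p ≡ 1` -/
lemma totient_le_R {p : Nat.Primes} (h : ((p : ℕ) : ZMod n) = 1) :
    n.totient ≤ R (CyclotomicField n ℚ) p := by
  classical
  have : Fact (p : ℕ).Prime := ⟨p.prop⟩
  have hdvd : n ∣ (p : ℕ) - 1 := by
    rw [← ZMod.natCast_eq_zero_iff, Nat.cast_sub p.prop.one_lt.le, h, Nat.cast_one, sub_self]
  obtain ⟨g, hg⟩ := IsCyclic.exists_generator (α := (ZMod (p : ℕ))ˣ)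
  have hord : orderOf g = (p : ℕ) - 1 := by
    rw [orderOf_eq_card_of_forall_mem_zpowers hg, Nat.card_eq_fintype_card,
      ZMod.card_units_eq_totient, Nat.totient_prime p.prop]
  obtain ⟨e, he⟩ := hdvd
  have hpos : 0 < (p : ℕ) - 1 := by have := p.prop.one_lt; omega
  have hz : IsPrimitiveRoot ((g ^ e : (ZMod (p : ℕ))ˣ) : ZMod (p : ℕ)) n := by
    have h1 : IsPrimitiveRoot g ((p : ℕ) - 1) := by
      rw [← hord]; exact IsPrimitiveRoot.orderOf g
    have h2 : IsPrimitiveRoot (g ^ e) n := h1.pow hpos (by rw [he, mul_comm])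
    exact IsPrimitiveRoot.coe_units_iff.mpr h2
  have hcard := hz.card_primitiveRoots
  have hζ := (IsCyclotomicExtension.zeta_spec n ℚ (CyclotomicField n ℚ))
  have hmin : minpoly ℤ hζ.integralPowerBasis.gen = cyclotomic n ℤ := by
    rw [hζ.integralPowerBasis_gen]
    have h1 := cyclotomic_eq_minpoly hζ (NeZero.pos n)
    rw [h1]
    exact (minpoly.algebraMap_eq (B := 𝓞 (CyclotomicField n ℚ)) RingOfIntegers.coe_injective
      hζ.toInteger).symm
  have hn0 : ((n : ℕ) : ZMod (p : ℕ)) ≠ 0 := by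
    intro h0
    have := (ZMod.natCast_eq_zero_iff _ _).mp h0
    have h4 : (p : ℕ) ≤ n := Nat.le_of_dvd (NeZero.pos n) this
    have h5 : n ≤ (p : ℕ) - 1 := Nat.le_of_dvd hpos ⟨e, he⟩
    omega
  have : NeZero ((n : ℕ) : ZMod (p : ℕ)) := ⟨hn0⟩
  have hroot : ∀ y : primitiveRoots n (ZMod (p : ℕ)),
      aeval (y : ZMod (p : ℕ)) (minpoly ℤ hζ.integralPowerBasis.gen) = 0 := by
    intro y
    have h1 := (mem_primitiveRoots (NeZero.pos n)).mp y.2
    rw [hmin, aeval_def, ← eval_map, algebraMap_int_eq, map_cyclotomic]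
    exact (isRoot_cyclotomic_iff.mpr h1).eq_zero
  set f : primitiveRoots n (ZMod (p : ℕ)) → (𝓞 (CyclotomicField n ℚ) →+* ZMod (p : ℕ)) :=
    fun y => (hζ.integralPowerBasis.lift (y : ZMod (p : ℕ)) (hroot y)).toRingHom with hf
  have hinj : Function.Injective f := by
    intro y y' h
    have h1 := congrArg (fun φ => φ hζ.integralPowerBasis.gen) h
    simp only [hf] at h1
    have e1 : ∀ y : primitiveRoots n (ZMod (p : ℕ)),
        (hζ.integralPowerBasis.lift (y : ZMod (p : ℕ)) (hroot y)).toRingHom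
        hζ.integralPowerBasis.gen = (y : ZMod (p : ℕ)) := fun y => PowerBasis.lift_gen _ _ _
    rw [e1, e1] at h1
    exact Subtype.ext h1
  have hfin : Finite (𝓞 (CyclotomicField n ℚ) →+* ZMod (p : ℕ)) := hom_finite p
  have := Nat.card_le_card_of_injective f hinj
  rw [R_eq_hc]
  unfold hc
  rw [Nat.card_eq_fintype_card, Fintype.card_coe, hcard] at this
  exact this

lemma pow_eq_mod {F : Type*} [Field F] {z : F} (hz : IsPrimitiveRoot z n) {a b : ℕ}
    (h : z ^ a = z ^ b) : (a : ZMod n) = (b : ZMod n) := by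
  obtain ⟨u, hu⟩ := hz.isUnit (NeZero.ne n)
  have h1 : IsPrimitiveRoot u n := by rw [← hu] at hz; exact IsPrimitiveRoot.coe_units_iff.mp hz
  have h2 : u ^ a = u ^ b := by
    apply Units.ext
    push_cast
    rw [hu, h]
  rw [pow_eq_pow_iff_modEq, ← h1.eq_orderOf] at h2
  exact (ZMod.natCast_eq_natCast_iff _ _ _).mpr h2

lemma quad {F : Type*} [Field F] {p : ℕ} [Fact p.Prime] [CharP F p] {z y : F} {c d : ℤ}
    (hc : z + y = (c : F)) (hd : z * y = (d : F)) : z ^ p = z ∨ z ^ p = y := by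
  have hint : ∀ e : ℤ, ((e : F)) ^ p = (e : F) := by
    intro e
    have h1 := ZMod.pow_card (e : ZMod p)
    have h2 := congrArg (ZMod.castHom (dvd_refl p) F) h1
    rwa [map_pow, map_intCast] at h2
  have h1 : z ^ 2 + (d : F) = (c : F) * z := by rw [← hc, ← hd]; ring
  have h2 : (z ^ 2 + (d : F)) ^ p = ((c : F) * z) ^ p := by rw [h1]
  rw [add_pow_char, mul_pow, hint, hint] at h2
  have h3 : (z ^ p - z) * (z ^ p - y) = 0 := by
    have e : (z ^ 2) ^ p = (z ^ p) ^ 2 := by ring
    rw [e] at h2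
    calc (z ^ p - z) * (z ^ p - y) = (z ^ p) ^ 2 - (z + y) * z ^ p + z * y := by ring
      _ = (z ^ p) ^ 2 - (c : F) * z ^ p + (d : F) := by rw [hc, hd]
      _ = 0 := by linear_combination h2
  rcases mul_eq_zero.mp h3 with h | h
  · left; exact sub_eq_zero.mp h
  · right; exact sub_eq_zero.mp h

/-- the fixed field of an automorphism of order two -/
lemma exists_sub {t : (ZMod n)ˣ} (ht : t ^ 2 = 1) (ht1 : t ≠ 1) :
    ∃ (F0 : IntermediateField ℚ (CyclotomicField n ℚ)), 2 * Module.finrank ℚ F0 = n.totient ∧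
      ∀ p : Nat.Primes, ¬ (p : ℕ) ∣ n → R F0 p ≠ 0 →
        ((p : ℕ) : ZMod n) = 1 ∨ ((p : ℕ) : ZMod n) = (t : ZMod n) := by
  classical
  set E := CyclotomicField n ℚ with hE
  have hζ := (IsCyclotomicExtension.zeta_spec n ℚ E)
  set ζ := IsCyclotomicExtension.zeta n ℚ E with hζdef
  have hirr : Irreducible (cyclotomic n ℚ) := cyclotomic.irreducible_rat (NeZero.pos n)
  set A := IsCyclotomicExtension.autEquivPow E hirr with hA
  set σ := A.symm t with hσ
  have hAσ : A σ = t := A.apply_symm_apply t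
  have hσζ : σ ζ = ζ ^ (t : ZMod n).val := by
    have h1 := IsPrimitiveRoot.autToPow_spec ℚ hζ σ
    have h2 : hζ.autToPow ℚ σ = t := by
      rw [← hAσ]; rfl
    rw [h2] at h1
    exact h1.symm
  have hσ2 : σ * σ = 1 := by
    apply A.injective
    rw [map_mul, hAσ, map_one, ← pow_two, ht]
  have hσ1 : σ ≠ 1 := by
    intro h
    apply ht1
    rw [← hAσ, h, map_one]
  have hord : orderOf σ = 2 := orderOf_eq_prime (by rw [pow_two, hσ2]) hσ1
  set H := Subgroup.zpowers σ with hH
  refine ⟨IntermediateField.fixedField H, ?_, ?_⟩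
  · have h1 := IntermediateField.finrank_fixedField_eq_card H
    have h2 := Module.finrank_mul_finrank ℚ (IntermediateField.fixedField H) E
    have h3 : Module.finrank ℚ E = n.totient := IsCyclotomicExtension.finrank E hirr
    rw [h1, Nat.card_zpowers, hord, h3] at h2
    rw [mul_comm]
    exact h2
  · intro p hp hR
    have : Fact (p : ℕ).Prime := ⟨p.prop⟩
    rw [R_eq_hc] at hR
    unfold hc at hR
    set F0 := IntermediateField.fixedField H with hF0
    obtain ⟨φ⟩ : Nonempty (𝓞 F0 →+* ZMod (p : ℕ)) := by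
      by_contra hne
      rw [not_nonempty_iff] at hne
      exact hR Nat.card_of_isEmpty
    have hsurj : Function.Surjective φ := ZMod.ringHom_surjective φ
    have hmax : (RingHom.ker φ).IsMaximal := RingHom.ker_isMaximal_of_surjective φ hsurj
    obtain ⟨Q, hQ, hQc⟩ := Ideal.exists_ideal_over_maximal_of_isIntegral (S := 𝓞 E)
      (RingHom.ker φ) (by
        have : RingHom.ker (algebraMap (𝓞 F0) (𝓞 E)) = ⊥ :=
          (RingHom.injective_iff_ker_eq_bot _).mp (FaithfulSMul.algebraMap_injective _ _)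
        rw [this]; exact bot_le)
    let _ : Field (𝓞 E ⧸ Q) := Ideal.Quotient.field Q
    have hcharp : ((p : ℕ) : 𝓞 E ⧸ Q) = 0 := by
      have h1 : ((p : ℕ) : 𝓞 F0) ∈ RingHom.ker φ := by
        rw [RingHom.mem_ker, map_natCast]; exact ZMod.natCast_self _
      rw [← hQc, Ideal.mem_comap, map_natCast] at h1
      have h2 := Ideal.Quotient.eq_zero_iff_mem.mpr h1
      rwa [map_natCast] at h2
    have : CharP (𝓞 E ⧸ Q) (p : ℕ) := (CharP.charP_iff_prime_eq_zero p.prop).mpr hcharp
    have hn0 : ((n : ℕ) : 𝓞 E ⧸ Q) ≠ 0 := by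
      rw [Ne, CharP.cast_eq_zero_iff _ (p : ℕ)]; exact hp
    have hz := prim_map (Ideal.Quotient.mk Q) (nat_ne_zero_ring E) hn0 hζ.toInteger_isPrimitiveRoot
    -- elements of the fixed field
    have key : ∀ x : 𝓞 E, σ (x : E) = (x : E) → ∃ c : ℤ, Ideal.Quotient.mk Q x = (c : 𝓞 E ⧸ Q) := by
      intro x hx
      have hmem : (x : E) ∈ F0 := by
        rw [hF0, IntermediateField.mem_fixedField_iff]
        intro f hf
        obtain ⟨k, rfl⟩ := Subgroup.mem_zpowers_iff.mp hf
        have h1 : ∀ k : ℕ, (σ ^ k) (x : E) = (x : E) := by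
          intro k
          induction k with
          | zero => rfl
          | succ k ih => rw [pow_succ, AlgEquiv.mul_apply, hx, ih]
        rcases Int.eq_nat_or_neg k with ⟨j, rfl | rfl⟩
        · rw [zpow_natCast]; exact h1 j
        · rw [zpow_neg, zpow_natCast]
          have h2 := h1 j
          have h3 : ((σ ^ j)⁻¹ * σ ^ j) (x : E) = (x : E) := by rw [inv_mul_cancel]; rfl
          rw [AlgEquiv.mul_apply, h2] at h3
          exact h3
      set y' : F0 := ⟨(x : E), hmem⟩ with hy'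
      have hint : IsIntegral ℤ y' := by
        have h1 : IsIntegral ℤ (x : E) := RingOfIntegers.isIntegral_coe x
        exact (isIntegral_algHom_iff (IsScalarTower.toAlgHom ℤ F0 E)
          (FaithfulSMul.algebraMap_injective F0 E)).mp h1
      set y : 𝓞 F0 := ⟨y', hint⟩ with hy
      have hyx : algebraMap (𝓞 F0) (𝓞 E) y = x := by
        apply RingOfIntegers.ext
        rfl
      obtain ⟨c, hc⟩ := ZMod.intCast_surjective (φ y)
      refine ⟨c, ?_⟩
      have h1 : y - (c : 𝓞 F0) ∈ RingHom.ker φ := by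
        rw [RingHom.mem_ker, map_sub, map_intCast, hc, sub_self]
      rw [← hQc, Ideal.mem_comap, map_sub, map_intCast, hyx] at h1
      have h2 := Ideal.Quotient.eq_zero_iff_mem.mpr h1
      rw [map_sub, map_intCast] at h2
      exact sub_eq_zero.mp h2
    set Z : 𝓞 E := hζ.toInteger with hZ
    have hZc : (Z : E) = ζ := rfl
    have hσZ : σ (Z : E) = ((Z ^ (t : ZMod n).val : 𝓞 E) : E) := by
      rw [hZc, hσζ]; push_cast; rfl
    have hσZ2 : σ ((Z ^ (t : ZMod n).val : 𝓞 E) : E) = (Z : E) := by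
      rw [← hσZ, ← AlgEquiv.mul_apply, hσ2]; rfl
    obtain ⟨c, hc⟩ := key (Z + Z ^ (t : ZMod n).val) (by
      push_cast at hσZ hσZ2 ⊢
      rw [map_add, hσZ, hσZ2, add_comm])
    obtain ⟨d, hd⟩ := key (Z * Z ^ (t : ZMod n).val) (by
      push_cast at hσZ hσZ2 ⊢
      rw [map_mul, hσZ, hσZ2, mul_comm])
    rw [map_add] at hc
    rw [map_mul] at hd
    rcases quad (p := (p : ℕ)) hc hd with h | h
    · left
      have := pow_eq_mod hz (a := (p : ℕ)) (b := 1) (by rw [h, pow_one])
      simpa using this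
    · right
      rw [map_pow] at h
      have := pow_eq_mod hz h
      rw [this, ZMod.natCast_zmod_val]

end

/-- **Primes.** Let `k` be a number field linearly disjoint from the field of `n`-th roots of unity,
and `t` a residue with `t ^ 2 = 1`. There are arbitrarily large primes `ℓ ≡ t` modulo `n` above which
`k` has a prime of degree one. -/
theorem exists_prime_hom (k : Type) [Field k] [NumberField k] {n : ℕ} [NeZero n]
    (hk : IsField (k ⊗[ℚ] CyclotomicField n ℚ)) {t : (ZMod n)ˣ} (ht : t ^ 2 = 1) (N : ℕ) :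
    ∃ ℓ : ℕ, N < ℓ ∧ ℓ.Prime ∧ (ℓ : ZMod n) = t ∧ Nonempty (𝓞 k →+* ZMod ℓ) := by
  classical
  have : IsCyclotomicExtension {n} ℚ (CyclotomicField n ℚ) :=
    CyclotomicField.isCyclotomicExtension n ℚ
  have : NumberField (CyclotomicField n ℚ) := IsCyclotomicExtension.numberField {n} ℚ _
  by_contra hcon
  push Not at hcon
  have hR0 : ∀ p : Nat.Primes, N < (p : ℕ) → ((p : ℕ) : ZMod n) = t → R k p = 0 := by
    intro p hp hpt
    have h1 := hcon p hp p.prop hpt
    rw [R_eq_hc]
    unfold hc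
    exact Nat.card_of_isEmpty
  have hbig : ∀ p : Nat.Primes, N + n < (p : ℕ) → ¬ (p : ℕ) ∣ n := by
    intro p hp hd
    have := Nat.le_of_dvd (NeZero.pos n) hd
    omega
  by_cases ht1 : t = 1
  · refine core_one (K := k) (A := CyclotomicField n ℚ) (N + n) fun p hp => ?_
    by_cases hA : R (CyclotomicField n ℚ) p = 0
    · rw [hA, mul_zero]
    · have h1 := mod_one_of_R (hbig p hp) hA
      rw [hR0 p (by omega) (by rw [h1, ht1]; rfl), zero_mul]
  · obtain ⟨F0, hF, hF'⟩ := exists_sub ht ht1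
    refine core (K := k) (A := CyclotomicField n ℚ) (B := F0) (rk_eq_one hk) (N + n) fun p hp => ?_
    by_cases hB : R F0 p = 0
    · rw [hB, mul_zero, mul_zero]; exact Nat.zero_le _
    · rcases hF' p (hbig p hp) hB with h | h
      · have h1 := totient_le_R h
        have h2 := R_le (K := F0) p
        have h3 : 2 * R F0 p ≤ R (CyclotomicField n ℚ) p := by omega
        calc 2 * (R k p * R F0 p) = R k p * (2 * R F0 p) := by ring
          _ ≤ _ := Nat.mul_le_mul_left _ h3
      · rw [hR0 p (by omega) h, zero_mul, zero_mul, mul_zero]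

end Pool.Agent.H916L
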