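import Pool.Agent.H916L.Cheb

/-!
# Primes in residue classes of order two with a degree one prime in a given number field, II
-/

set_option linter.unusedSectionVars false

open Filter Topology NumberField IsDedekindDomain Polynomial
open scoped TensorProduct

namespace Pool.Agent.H916L

open Pool.Agent.H921R2.TatePole

lemma core_eq {K A B : Type} [Field K] [NumberField K] [Field A] [NumberField A] [Field B]
    [NumberField B] (N0 : ℕ)
    (h : ∀ p : Nat.Primes, N0 < (p : ℕ) → 2 * (R K p * R B p) = R K p * R A p) :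
    rk K A = 2 * rk K B := by
  classical
  obtain ⟨C1, hC1⟩ := prod_bdd K A
  obtain ⟨C2, hC2⟩ := prod_bdd K B
  set g : Nat.Primes → ℝ := fun p => if N0 < (p : ℕ) then 0 else
    (R K p : ℝ) * (R A p : ℝ) - 2 * ((R K p : ℝ) * (R B p : ℝ)) with hg
  have hgb : ∀ p, |g p| ≤ Module.finrank ℚ K * Module.finrank ℚ A +
      2 * (Module.finrank ℚ K * Module.finrank ℚ B) := by
    intro p
    simp only [hg]
    split_ifs
    · rw [abs_zero]; positivity
    · refine (abs_sub _ _).trans ?_
      refine add_le_add (prod_abs K A p) ?_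
      rw [abs_mul, abs_of_nonneg (by norm_num : (0 : ℝ) ≤ 2)]
      exact mul_le_mul_of_nonneg_left (prod_abs K B p) (by norm_num)
  obtain ⟨C3, hC3⟩ := finite_support_bdd hgb (M := N0.factorial) (Nat.factorial_ne_zero _) (by
    intro p hp
    simp only [hg]
    rw [if_pos]
    by_contra hle
    push Not at hle
    exact hp ((p.prop.dvd_factorial).mpr hle))
  have hbig := Lam_top.eventually_gt_atTop (C1 + 2 * C2 + C3)
  obtain ⟨x, ⟨⟨⟨h1, h2⟩, h3⟩, h4⟩, hx1⟩ :=
    ((((hC1.and hC2).and hC3).and hbig).and self_mem_nhdsWithin).exists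
  have hx : 1 < x := hx1
  have hs1 : Summable (fun p : Nat.Primes => ((R K p : ℝ) * (R A p : ℝ)) * w x p) :=
    bddmul_summable hx (prod_abs K A)
  have hs2 : Summable (fun p : Nat.Primes => ((R K p : ℝ) * (R B p : ℝ)) * w x p) :=
    bddmul_summable hx (prod_abs K B)
  have hs3 : Summable (fun p : Nat.Primes => g p * w x p) := bddmul_summable hx hgb
  have heq : ∑' p : Nat.Primes, ((R K p : ℝ) * (R A p : ℝ)) * w x p =
      2 * ∑' p : Nat.Primes, ((R K p : ℝ) * (R B p : ℝ)) * w x p + ∑' p : Nat.Primes, g p * w x p := by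
    rw [← tsum_mul_left, ← Summable.tsum_add (hs2.mul_left 2) hs3]
    refine tsum_congr fun p => ?_
    simp only [hg]
    split_ifs with hp
    · have h5 : 2 * ((R K p : ℝ) * (R B p : ℝ)) = (R K p : ℝ) * (R A p : ℝ) := by
        exact_mod_cast h p hp
      rw [← h5]; ring
    · ring
  have k1 := abs_le.mp h1
  have k2 := abs_le.mp h2
  have k3 := abs_le.mp h3
  have hC1' : 0 ≤ C1 := (abs_nonneg _).trans h1
  have hC2' : 0 ≤ C2 := (abs_nonneg _).trans h2
  have hC3' : 0 ≤ C3 := (abs_nonneg _).trans h3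
  have hL : 0 ≤ Lam x := by linarith
  have hL' : 0 < Lam x := by linarith
  -- compare the two ranks
  have hle1 : ((rk K A : ℝ) - 2 * (rk K B : ℝ)) * Lam x ≤ C1 + 2 * C2 + C3 := by
    linarith [k1.1, k1.2, k2.1, k2.2, k3.1, k3.2]
  have hle2 : (2 * (rk K B : ℝ) - (rk K A : ℝ)) * Lam x ≤ C1 + 2 * C2 + C3 := by
    linarith [k1.1, k1.2, k2.1, k2.2, k3.1, k3.2]
  rcases lt_trichotomy (rk K A) (2 * rk K B) with hlt | heq' | hgt
  · exfalso
    have h6 : (1 : ℝ) ≤ 2 * (rk K B : ℝ) - (rk K A : ℝ) := by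
      have : ((rk K A : ℝ)) + 1 ≤ 2 * (rk K B : ℝ) := by exact_mod_cast hlt
      linarith
    have h7 : Lam x ≤ (2 * (rk K B : ℝ) - (rk K A : ℝ)) * Lam x := le_mul_of_one_le_left hL h6
    linarith
  · exact heq'
  · exfalso
    have h6 : (1 : ℝ) ≤ (rk K A : ℝ) - 2 * (rk K B : ℝ) := by
      have : 2 * ((rk K B : ℝ)) + 1 ≤ (rk K A : ℝ) := by exact_mod_cast hgt
      linarith
    have h7 : Lam x ≤ ((rk K A : ℝ) - 2 * (rk K B : ℝ)) * Lam x := le_mul_of_one_le_left hL h6
    linarith

section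
variable {n : ℕ} [NeZero n]

local instance : IsCyclotomicExtension {n} ℚ (CyclotomicField n ℚ) :=
  CyclotomicField.isCyclotomicExtension n ℚ

local instance : NumberField (CyclotomicField n ℚ) := IsCyclotomicExtension.numberField {n} ℚ _

/-- the fixed field of an automorphism of order two -/
lemma exists_sub2 {t : (ZMod n)ˣ} (ht : t ^ 2 = 1) (ht1 : t ≠ 1) :
    ∃ (F0 : IntermediateField ℚ (CyclotomicField n ℚ)), 2 * Module.finrank ℚ F0 = n.totient ∧
      (∀ p : Nat.Primes, R (CyclotomicField n ℚ) p ≤ 2 * R F0 p) ∧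
      ∀ p : Nat.Primes, ¬ (p : ℕ) ∣ n → R F0 p ≠ 0 →
        ((p : ℕ) : ZMod n) = 1 ∨ ((p : ℕ) : ZMod n) = (t : ZMod n) := by
  classical
  set E := CyclotomicField n ℚ with hE
  have hζ := (IsCyclotomicExtension.zeta_spec n ℚ E)
  set ζ := IsCyclotomicExtension.zeta n ℚ E with hζdef
  have hirr : Irreducible (cyclotomic n ℚ) := cyclotomic.irreducible_rat (NeZero.pos n)
  set A := IsCyclotomicExtension.autEquivPow E hirr with hA
  set σ := A.symm t with hσ
  have hAσ : A σ = t := A.apply_symm_apply t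
  have hσζ : σ ζ = ζ ^ (t : ZMod n).val := by
    have h1 := IsPrimitiveRoot.autToPow_spec ℚ hζ σ
    have h2 : hζ.autToPow ℚ σ = t := by
      rw [← hAσ]; rfl
    rw [h2] at h1
    exact h1.symm
  have hσ2 : σ * σ = 1 := by
    apply A.injective
    rw [map_mul, hAσ, map_one, ← pow_two, ht]
  have hσ1 : σ ≠ 1 := by
    intro h
    apply ht1
    rw [← hAσ, h, map_one]
  have hord : orderOf σ = 2 := orderOf_eq_prime (by rw [pow_two, hσ2]) hσ1
  set H := Subgroup.zpowers σ with hH
  set F0 := IntermediateField.fixedField H with hF0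
  -- integers fixed by `σ`
  have hfix : ∀ x : 𝓞 E, σ (x : E) = (x : E) → ∃ y : 𝓞 F0, algebraMap (𝓞 F0) (𝓞 E) y = x := by
    intro x hx
    have hmem : (x : E) ∈ F0 := by
      rw [hF0, IntermediateField.mem_fixedField_iff]
      intro f hf
      obtain ⟨k, rfl⟩ := Subgroup.mem_zpowers_iff.mp hf
      have h1 : ∀ k : ℕ, (σ ^ k) (x : E) = (x : E) := by
        intro k
        induction k with
        | zero => rfl
        | succ k ih => rw [pow_succ, AlgEquiv.mul_apply, hx, ih]
      rcases Int.eq_nat_or_neg k with ⟨j, rfl | rfl⟩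
      · rw [zpow_natCast]; exact h1 j
      · rw [zpow_neg, zpow_natCast]
        have h2 := h1 j
        have h3 : ((σ ^ j)⁻¹ * σ ^ j) (x : E) = (x : E) := by rw [inv_mul_cancel]; rfl
        rw [AlgEquiv.mul_apply, h2] at h3
        exact h3
    set y' : F0 := ⟨(x : E), hmem⟩ with hy'
    have hint : IsIntegral ℤ y' := by
      have h1 : IsIntegral ℤ (x : E) := RingOfIntegers.isIntegral_coe x
      exact (isIntegral_algHom_iff (IsScalarTower.toAlgHom ℤ F0 E)
        (FaithfulSMul.algebraMap_injective F0 E)).mp h1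
    exact ⟨⟨y', hint⟩, RingOfIntegers.ext rfl⟩
  set Z : 𝓞 E := hζ.toInteger with hZ
  have hZc : (Z : E) = ζ := rfl
  have hσZ : σ (Z : E) = ((Z ^ (t : ZMod n).val : 𝓞 E) : E) := by
    rw [hZc, hσζ]; push_cast; rfl
  have hσZ2 : σ ((Z ^ (t : ZMod n).val : 𝓞 E) : E) = (Z : E) := by
    rw [← hσZ, ← AlgEquiv.mul_apply, hσ2]; rfl
  obtain ⟨yc, hyc⟩ := hfix (Z + Z ^ (t : ZMod n).val) (by
    push_cast at hσZ hσZ2 ⊢
    rw [map_add, hσZ, hσZ2, add_comm])
  obtain ⟨yd, hyd⟩ := hfix (Z * Z ^ (t : ZMod n).val) (by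
    push_cast at hσZ hσZ2 ⊢
    rw [map_mul, hσZ, hσZ2, mul_comm])
  refine ⟨F0, ?_, ?_, ?_⟩
  · have h1 := IntermediateField.finrank_fixedField_eq_card H
    have h2 := Module.finrank_mul_finrank ℚ (IntermediateField.fixedField H) E
    have h3 : Module.finrank ℚ E = n.totient := IsCyclotomicExtension.finrank E hirr
    rw [h1, Nat.card_zpowers, hord, h3] at h2
    rw [mul_comm]
    exact h2
  · intro p
    have : Fact (p : ℕ).Prime := ⟨p.prop⟩
    rw [R_eq_hc, R_eq_hc]
    unfold hc
    have hf1 : Finite (𝓞 E →+* ZMod (p : ℕ)) := hom_finite p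
    have hf2 : Finite (𝓞 F0 →+* ZMod (p : ℕ)) := hom_finite p
    let _ : Fintype (𝓞 E →+* ZMod (p : ℕ)) := Fintype.ofFinite _
    let _ : Fintype (𝓞 F0 →+* ZMod (p : ℕ)) := Fintype.ofFinite _
    rw [Nat.card_eq_fintype_card, Nat.card_eq_fintype_card]
    set f : (𝓞 E →+* ZMod (p : ℕ)) → (𝓞 F0 →+* ZMod (p : ℕ)) :=
      fun φ => φ.comp (algebraMap (𝓞 F0) (𝓞 E)) with hf
    have hev : Function.Injective (fun φ : 𝓞 E →+* ZMod (p : ℕ) => φ Z) := by
      intro φ φ' h
      have h1 : ∀ x : 𝓞 E, ∃ P : ℤ[X], x = aeval Z P := by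
        intro x
        have h2 := hζ.integralPowerBasis.adjoin_gen_eq_top
        have h3 : x ∈ Algebra.adjoin ℤ {hζ.integralPowerBasis.gen} := by rw [h2]; trivial
        rw [hζ.integralPowerBasis_gen] at h3
        rw [Algebra.adjoin_singleton_eq_range_aeval] at h3
        obtain ⟨P, hP⟩ := h3
        exact ⟨P, hP.symm⟩
      ext x
      obtain ⟨P, rfl⟩ := h1 x
      have h4 : ∀ φ : 𝓞 E →+* ZMod (p : ℕ), φ (aeval Z P) = aeval (φ Z) P := by
        intro φ
        exact (aeval_algHom_apply φ.toIntAlgHom Z P).symm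
      rw [h4, h4]
      have h5 : φ Z = φ' Z := h
      rw [h5]
    have hcard := Finset.card_le_mul_card_image (s := (Finset.univ : Finset (𝓞 E →+* ZMod (p : ℕ))))
      (f := f) 2 (by
        intro b hb
        obtain ⟨φ1, _, hφ1⟩ := Finset.mem_image.mp hb
        have hsub : (Finset.univ.filter fun φ => f φ = b).image
            (fun φ : 𝓞 E →+* ZMod (p : ℕ) => φ Z) ⊆ {φ1 Z, φ1 (Z ^ (t : ZMod n).val)} := by
          intro y hy
          obtain ⟨φ, hφ, rfl⟩ := Finset.mem_image.mp hy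
          have hφb : f φ = f φ1 := by rw [hφ1]; exact (Finset.mem_filter.mp hφ).2
          have e1 : φ (Z + Z ^ (t : ZMod n).val) = φ1 (Z + Z ^ (t : ZMod n).val) := by
            rw [← hyc]; exact congrArg (fun g => g yc) hφb
          have e2 : φ (Z * Z ^ (t : ZMod n).val) = φ1 (Z * Z ^ (t : ZMod n).val) := by
            rw [← hyd]; exact congrArg (fun g => g yd) hφb
          rw [map_add, map_add] at e1
          rw [map_mul, map_mul] at e2
          have e3 : (φ Z - φ1 Z) * (φ Z - φ1 (Z ^ (t : ZMod n).val)) = 0 := by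
            linear_combination (φ Z) * e1 - e2
          rcases mul_eq_zero.mp e3 with h | h
          · rw [sub_eq_zero.mp h]; exact Finset.mem_insert_self _ _
          · rw [sub_eq_zero.mp h]
            exact Finset.mem_insert_of_mem (Finset.mem_singleton_self _)
        have h2 := Finset.card_le_card hsub
        rw [Finset.card_image_of_injective _ hev] at h2
        exact h2.trans Finset.card_le_two)
    refine hcard.trans (Nat.mul_le_mul_left 2 ?_)
    exact Finset.card_le_univ _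
  · intro p hp hR
    have : Fact (p : ℕ).Prime := ⟨p.prop⟩
    rw [R_eq_hc] at hR
    unfold hc at hR
    obtain ⟨φ⟩ : Nonempty (𝓞 F0 →+* ZMod (p : ℕ)) := by
      by_contra hne
      rw [not_nonempty_iff] at hne
      exact hR Nat.card_of_isEmpty
    have hsurj : Function.Surjective φ := ZMod.ringHom_surjective φ
    have hmax : (RingHom.ker φ).IsMaximal := RingHom.ker_isMaximal_of_surjective φ hsurj
    obtain ⟨Q, hQ, hQc⟩ := Ideal.exists_ideal_over_maximal_of_isIntegral (S := 𝓞 E)
      (RingHom.ker φ) (by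
        have : RingHom.ker (algebraMap (𝓞 F0) (𝓞 E)) = ⊥ :=
          (RingHom.injective_iff_ker_eq_bot _).mp (FaithfulSMul.algebraMap_injective _ _)
        rw [this]; exact bot_le)
    let _ : Field (𝓞 E ⧸ Q) := Ideal.Quotient.field Q
    have hcharp : ((p : ℕ) : 𝓞 E ⧸ Q) = 0 := by
      have h1 : ((p : ℕ) : 𝓞 F0) ∈ RingHom.ker φ := by
        rw [RingHom.mem_ker, map_natCast]; exact ZMod.natCast_self _
      rw [← hQc, Ideal.mem_comap, map_natCast] at h1
      have h2 := Ideal.Quotient.eq_zero_iff_mem.mpr h1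
      rwa [map_natCast] at h2
    have : CharP (𝓞 E ⧸ Q) (p : ℕ) := (CharP.charP_iff_prime_eq_zero p.prop).mpr hcharp
    have hn0 : ((n : ℕ) : 𝓞 E ⧸ Q) ≠ 0 := by
      rw [Ne, CharP.cast_eq_zero_iff _ (p : ℕ)]; exact hp
    have hz := prim_map (Ideal.Quotient.mk Q) (nat_ne_zero_ring E) hn0 hζ.toInteger_isPrimitiveRoot
    -- elements of the fixed field
    have key : ∀ x : 𝓞 E, (∃ y : 𝓞 F0, algebraMap (𝓞 F0) (𝓞 E) y = x) →
        ∃ c : ℤ, Ideal.Quotient.mk Q x = (c : 𝓞 E ⧸ Q) := by
      rintro x ⟨y, hyx⟩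
      obtain ⟨c, hc⟩ := ZMod.intCast_surjective (φ y)
      refine ⟨c, ?_⟩
      have h1 : y - (c : 𝓞 F0) ∈ RingHom.ker φ := by
        rw [RingHom.mem_ker, map_sub, map_intCast, hc, sub_self]
      rw [← hQc, Ideal.mem_comap, map_sub, map_intCast, hyx] at h1
      have h2 := Ideal.Quotient.eq_zero_iff_mem.mpr h1
      rw [map_sub, map_intCast] at h2
      exact sub_eq_zero.mp h2
    obtain ⟨c, hc⟩ := key (Z + Z ^ (t : ZMod n).val) ⟨yc, hyc⟩
    obtain ⟨d, hd⟩ := key (Z * Z ^ (t : ZMod n).val) ⟨yd, hyd⟩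
    rw [map_add] at hc
    rw [map_mul] at hd
    rcases quad (p := (p : ℕ)) hc hd with h | h
    · left
      have := pow_eq_mod hz (a := (p : ℕ)) (b := 1) (by rw [h, pow_one])
      simpa using this
    · right
      rw [map_pow] at h
      have := pow_eq_mod hz h
      rw [this, ZMod.natCast_zmod_val]

end

/-- **Primes.** Let `k` be a number field such that `k ⊗ ℚ(ζ_n)` is a product of an odd number of
fields, and `t` a residue with `t ^ 2 = 1`. There are arbitrarily large primes `ℓ ≡ t` modulo `n`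
above which `k` has a prime of degree one. -/
theorem exists_prime_odd (k : Type) [Field k] [NumberField k] {n : ℕ} [NeZero n]
    (hk : Odd (Nat.card (MaximalSpectrum (k ⊗[ℚ] CyclotomicField n ℚ))))
    {t : (ZMod n)ˣ} (ht : t ^ 2 = 1) (N : ℕ) :
    ∃ ℓ : ℕ, N < ℓ ∧ ℓ.Prime ∧ (ℓ : ZMod n) = t ∧ Nonempty (𝓞 k →+* ZMod ℓ) := by
  classical
  have : IsCyclotomicExtension {n} ℚ (CyclotomicField n ℚ) :=
    CyclotomicField.isCyclotomicExtension n ℚ
  have : NumberField (CyclotomicField n ℚ) := IsCyclotomicExtension.numberField {n} ℚ _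
  by_contra hcon
  push Not at hcon
  have hR0 : ∀ p : Nat.Primes, N < (p : ℕ) → ((p : ℕ) : ZMod n) = t → R k p = 0 := by
    intro p hp hpt
    have h1 := hcon p hp p.prop hpt
    rw [R_eq_hc]
    unfold hc
    exact Nat.card_of_isEmpty
  have hbig : ∀ p : Nat.Primes, N + n < (p : ℕ) → ¬ (p : ℕ) ∣ n := by
    intro p hp hd
    have := Nat.le_of_dvd (NeZero.pos n) hd
    omega
  by_cases ht1 : t = 1
  · refine core_one (K := k) (A := CyclotomicField n ℚ) (N + n) fun p hp => ?_
    by_cases hA : R (CyclotomicField n ℚ) p = 0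
    · rw [hA, mul_zero]
    · have h1 := mod_one_of_R (hbig p hp) hA
      rw [hR0 p (by omega) (by rw [h1, ht1]; rfl), zero_mul]
  · obtain ⟨F0, hF, hF1, hF'⟩ := exists_sub2 ht ht1
    have h0 := core_eq (K := k) (A := CyclotomicField n ℚ) (B := F0) (N + n) fun p hp => by
      by_cases hB : R F0 p = 0
      · have h1 := hF1 p
        rw [hB, mul_zero] at h1
        rw [hB, Nat.le_zero.mp h1, mul_zero, mul_zero]
      · rcases hF' p (hbig p hp) hB with h | h
        · have h1 := totient_le_R h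
          have h2 := R_le (K := F0) p
          have h3 := hF1 p
          have h4 : 2 * R F0 p = R (CyclotomicField n ℚ) p := by omega
          rw [← h4]; ring
        · rw [hR0 p (by omega) h, zero_mul, zero_mul, mul_zero]
    unfold rk at h0
    rw [h0] at hk
    exact (Nat.not_odd_iff_even.mpr (even_two_mul _)) hk

end Pool.Agent.H916L
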