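import Pool.Agent.H916R2.Defs

/-!
# Eigenlines of diagonal hypersurfaces over a number field

Let `k` be a number field, `K = k(ζ_m)`, let `c_0, ..., c_(n+1)` be nonzero integers of `k`
(`n` even) and let `X` be the diagonal hypersurface
`c_0 * x_0 ^ m + ... + c_(n+1) * x_(n+1) ^ m = 0`. Over `K` its primitive middle cohomology splits into lines `V(a)`, indexed by the tuples `a` of `n + 2` nonzero residues
modulo `m` with sum zero. Weil: the Frobenius element of a prime `P` of `K` with residue field `F`
of `q` elements acts on `V(a)` as `q⁻¹ * ∏ g(χ ^ a_i) / χ ^ a_i (c_i)`, where `χ` is the character of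
order `m` of `F` attached to `P` and `c_i` is read in `F`. The other characters of order `m` of `F`
are the powers `χ ^ t`, `t` prime to `m`; they give the Galois conjugates of this number, so that the
eigenvalue is `q ^ (n/2)` for one of them if and only if it is so for all of them.
-/

namespace Pool.Agent.H916L

open NumberField

/-- The Galois group of `K = k(ζ_m)` acts trivially on the line `V(a)(n/2)`: for all but finitely
many primes of `K` the Frobenius eigenvalue on `V(a)` is `q ^ (n/2)`. The multiset `s` consists of
the `n + 2` pairs `(a_i, c_i)`. The fields `F` with the maps `φ : 𝓞 k → F` are the residue fields of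
the primes of `K` above the prime number `ℓ`, with the reduction map: the residue field of `k` is
the image of `φ`, and if it has `N` elements, `F` has `N ^ f` elements, where `f` is the order of `N`
modulo `m`. -/
def RationalOver (k : Type) [Field k] (m : ℕ) (s : Multiset (ZMod m × 𝓞 k)) : Prop :=
  ∃ B : ℕ, ∀ ℓ : ℕ, B < ℓ → ℓ.Prime → ∀ (F : Type) [Field F] [Fintype F] [CharP F ℓ]
    (φ : 𝓞 k →+* F),
    Fintype.card F = Nat.card φ.range ^ orderOf (Nat.card φ.range : ZMod m) →
    ∀ (χ : MulChar F ℂ) (ψ : AddChar F ℂ), orderOf χ = m → ψ ≠ 1 →
    (s.map fun z => gaussSum (χ ^ z.1.val) ψ).prod =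
      (Fintype.card F : ℂ) ^ (Multiset.card s / 2) *
        (s.map fun z => (χ ^ z.1.val) (φ z.2)).prod

end Pool.Agent.H916L
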