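import Pool.Agent.H916K.MainTwo
import Pool.Agent.H916K.Stick

/-!
# Local forms of the parity and the Hodge type of rational classes
-/

set_option linter.unusedSectionVars false

namespace Pool.Agent.H916L

open Finset Pool.Agent.H916K

section

variable {ℓ : ℕ} [Fact ℓ.Prime] {F : Type} [Field F] [Fintype F] [Algebra (ZMod ℓ) F]
  {A : Type} [CommRing A] [IsDomain A] [CharZero A] {k : Type} [Field k] {q : ℕ} [Fact q.Prime]
  [CharP k q] (φ : A →+* k)

include q in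
lemma red_coef' {M b : ℕ} (hcard : Fintype.card F = ℓ ^ 2) (hM : M ∣ ℓ + 1)
    {χ : MulChar F A} (hχ : orderOf χ = M * q ^ b) {c : F} (hc : c ≠ 0) (hc1 : c ^ (ℓ - 1) = 1)
    (a : ℕ) : φ ((χ ^ a) c) = 1 := by
  have hℓ2 := (Fact.out : ℓ.Prime).two_le
  have hcard1 : (ℓ - 1) * (ℓ + 1) = Fintype.card F - 1 := by
    rw [hcard]
    obtain ⟨k, rfl⟩ : ∃ k, ℓ = k + 1 := ⟨ℓ - 1, by omega⟩
    simp only [Nat.add_sub_cancel]
    have : (k + 1) ^ 2 = k * (k + 1 + 1) + 1 := by ring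
    omega
  have h3 : (χ.ringHomComp φ) c = 1 := by
    refine mulChar_one (k := ℓ - 1) (n := ℓ + 1) (M := M) (by omega) hcard1 hM hc hc1 _ ?_
    intro y hy
    rw [MulChar.ringHomComp_apply]
    exact red_val (q := q) φ hχ hy
  rw [MulChar.ringHomComp_apply] at h3
  rw [mulChar_pow_apply χ a hc, map_pow, h3, one_pow]

end

/-- **Parity**, at one prime `ℓ`, `ℓ ≡ -1` modulo `2 * M` and `ℓ ≡ 1` modulo `q ^ b`. -/
theorem parity_local {m M q b : ℕ} (hm : m = M * q ^ b) (hM : 3 ≤ M) (hb : 0 < b) (hq : q.Prime)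
    (hq2 : q ≠ 2) (hcop : M.Coprime q) {ℓ : ℕ} (hℓ : ℓ.Prime) (hℓM : 2 * M ∣ ℓ + 1)
    (hqb : q ^ b ∣ ℓ - 1) {C : Type} {s : Multiset (ZMod m × C)} [Fact ℓ.Prime]
    [Fintype (GaloisField ℓ 2)] (γ : C → GaloisField ℓ 2)
    (hγ : ∀ z ∈ s, γ z.2 ≠ 0 ∧ γ z.2 ^ (ℓ - 1) = 1)
    (hN : ∀ (χ : MulChar (GaloisField ℓ 2) ℂ) (ψ : AddChar (GaloisField ℓ 2) ℂ),
      orderOf χ = m → ψ ≠ 1 → (s.map fun z => gaussSum (χ ^ z.1.val) ψ).prod =
        (Fintype.card (GaloisField ℓ 2) : ℂ) ^ (Multiset.card s / 2) *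
        (s.map fun z => (χ ^ z.1.val) (γ z.2)).prod) :
    Even (s.countP fun z => M ∣ z.1.val) := by
  classical
  have : Fact q.Prime := ⟨hq⟩
  have hcard : Fintype.card (GaloisField ℓ 2) = ℓ ^ 2 := by
    rw [← Nat.card_eq_fintype_card]; exact GaloisField.card ℓ 2 (by norm_num)
  have hℓ2 := hℓ.two_le
  have hMℓ : M ∣ ℓ + 1 := (Dvd.intro_left 2 rfl).trans hℓM
  have hfac : ℓ ^ 2 - 1 = (ℓ + 1) * (ℓ - 1) := by
    obtain ⟨k, rfl⟩ : ∃ k, ℓ = k + 1 := ⟨ℓ - 1, by omega⟩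
    simp only [Nat.add_sub_cancel]
    have : (k + 1) ^ 2 = (k + 1 + 1) * k + 1 := by ring
    omega
  have hmdvd : m ∣ ℓ ^ 2 - 1 := by
    rw [hfac, hm]; exact Nat.mul_dvd_mul hMℓ hqb
  obtain ⟨k, _, _, ⟨φ⟩⟩ := exists_red hq
  -- roots of unity
  have hinj : Function.Injective (algebraMap AI ℂ) := Subtype.val_injective
  have hroot : ∀ n : ℕ, n ≠ 0 → ∃ ζ : AI, IsPrimitiveRoot ζ n := by
    intro n hn
    have h1 := Complex.isPrimitiveRoot_exp n hn
    have h2 : IsIntegral ℤ (Complex.exp (2 * Real.pi * Complex.I / n)) :=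
      h1.isIntegral (Nat.pos_of_ne_zero hn)
    refine ⟨⟨_, h2⟩, ?_⟩
    exact IsPrimitiveRoot.of_map_of_injective (f := algebraMap AI ℂ) h1 hinj
  have hm0 : m ≠ 0 := by
    rw [hm]; have := hq.pos; positivity
  obtain ⟨ζ, hζ⟩ := hroot m hm0
  obtain ⟨ξ, hξ⟩ := hroot ℓ hℓ.ne_zero
  obtain ⟨χ, hχ⟩ := MulChar.exists_mulChar_orderOf (GaloisField ℓ 2) (n := m)
    (by rw [hcard]; exact hmdvd) hζ
  set ψ0 : AddChar (ZMod ℓ) AI := AddChar.zmodChar ℓ hξ.pow_eq_one with hψ0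
  have hψ1 : ψ0 ≠ 1 := by
    intro h
    have h1 : ψ0 1 = 1 := by rw [h]; rfl
    rw [hψ0, AddChar.zmodChar_apply] at h1
    have : Fact (1 < ℓ) := ⟨hℓ.one_lt⟩
    rw [ZMod.val_one, pow_one] at h1
    exact hξ.ne_one hℓ.one_lt h1
  set ψ := ψ0.compAddMonoidHom (Algebra.trace (ZMod ℓ) (GaloisField ℓ 2)).toAddMonoidHom with hψdef
  have hψ2 : ψ ≠ 1 := by
    intro h
    apply hψ1
    ext c
    obtain ⟨x, hx⟩ := Algebra.trace_surjective (ZMod ℓ) (GaloisField ℓ 2) c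
    have h4 : ψ x = 1 := by rw [h]; rfl
    rw [← hx]
    exact congrArg _ h4
  -- transfer to the complex numbers
  set χ' : MulChar (GaloisField ℓ 2) ℂ := χ.ringHomComp (algebraMap AI ℂ) with hχ'
  set ψ' : AddChar (GaloisField ℓ 2) ℂ := (algebraMap AI ℂ).toMonoidHom.compAddChar ψ with hψ'
  have hordχ : orderOf χ' = m := by
    rw [← hχ]
    exact orderOf_injective (MulChar.ringHomCompHom (algebraMap AI ℂ))
      (MulChar.injective_ringHomComp hinj) χ
  have hψ'1 : ψ' ≠ 1 := by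
    intro h
    apply hψ2
    ext x
    have h1 : ψ' x = 1 := by rw [h]; rfl
    exact h1
  have h1 := hN χ' ψ' hordχ hψ'1
  have hg : ∀ a : ℕ, gaussSum (χ' ^ a) ψ' = algebraMap AI ℂ (gaussSum (χ ^ a) ψ) := by
    intro a
    unfold gaussSum
    rw [map_sum]
    refine sum_congr rfl fun x _ => ?_
    rw [map_mul, hχ', MulChar.ringHomComp_pow, MulChar.ringHomComp_apply]
    rfl
  have hcoef : ∀ (a : ℕ) (c : GaloisField ℓ 2), (χ' ^ a) c =
      algebraMap AI ℂ ((χ ^ a) c) := by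
    intro a c
    rw [hχ', MulChar.ringHomComp_pow, MulChar.ringHomComp_apply]
  have h2 : (s.map fun z => gaussSum (χ ^ z.1.val) ψ).prod =
      (Fintype.card (GaloisField ℓ 2) : AI) ^ (Multiset.card s / 2) *
        (s.map fun z => (χ ^ z.1.val) (γ z.2)).prod := by
    apply hinj
    rw [map_mul, map_pow, map_natCast, map_multiset_prod, map_multiset_prod, Multiset.map_map,
      Multiset.map_map]
    have e1 : (s.map ((algebraMap AI ℂ) ∘ fun z => gaussSum (χ ^ z.1.val) ψ)) =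
        s.map fun z => gaussSum (χ' ^ z.1.val) ψ' :=
      Multiset.map_congr rfl fun z _ => (hg _).symm
    have e2 : (s.map ((algebraMap AI ℂ) ∘ fun z => (χ ^ z.1.val) (γ z.2))) =
        s.map fun z => (χ' ^ z.1.val) (γ z.2) :=
      Multiset.map_congr rfl fun z _ => (hcoef _ _).symm
    rw [e1, e2]
    exact h1
  have hℓk : ((ℓ : ℕ) : k) = 1 := by
    have h3 : ((ℓ - 1 : ℕ) : k) = 0 := by
      rw [CharP.cast_eq_zero_iff k q]
      exact (dvd_pow_self q (by omega)).trans hqb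
    rw [Nat.cast_sub (by omega), Nat.cast_one] at h3
    exact sub_eq_zero.mp h3
  have hχm : orderOf χ = M * q ^ b := by rw [hχ, hm]
  have h3 := congrArg φ h2
  rw [map_mul, map_pow, map_natCast, map_multiset_prod, map_multiset_prod, Multiset.map_map,
    Multiset.map_map] at h3
  have e1 : (s.map (φ ∘ fun z => gaussSum (χ ^ z.1.val) ψ)) =
      s.map fun z => if M ∣ z.1.val then (-1 : k) else 1 :=
    Multiset.map_congr rfl fun z _ => red_gauss φ hcard hℓM hcop hℓk hχm hψ1 _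
  have e2 : (s.map (φ ∘ fun z => (χ ^ z.1.val) (γ z.2))) = s.map fun _ => (1 : k) :=
    Multiset.map_congr rfl fun z hz =>
      red_coef' φ hcard hMℓ hχm (hγ z hz).1 (hγ z hz).2 _
  rw [e1, e2, prod_signs, hcard] at h3
  push_cast at h3
  rw [hℓk, one_pow, one_pow, one_mul, Multiset.map_const', Multiset.prod_replicate, one_pow] at h3
  by_contra hodd
  rw [Nat.not_even_iff_odd] at hodd
  rw [hodd.neg_one_pow] at h3
  have h4 : ((2 : ℕ) : k) = 0 := by push_cast; linear_combination -h3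
  rw [CharP.cast_eq_zero_iff k q] at h4
  have := (Nat.prime_dvd_prime_iff_eq hq Nat.prime_two).mp h4
  exact hq2 this

/-- **Hodge type**, from one prime `ℓ ≡ 1` modulo `m`. -/
theorem hodge_local {m : ℕ} (hm : 2 ≤ m) {ℓ : ℕ} (hℓ : ℓ.Prime) (hℓ3 : 3 ≤ ℓ)
    (hℓm : (ℓ : ZMod m) = 1) [hF : Fact ℓ.Prime] {C : Type} {s : Multiset (ZMod m × C)}
    (h0 : ∀ z ∈ s, z.1 ≠ 0) (heven : Even (Multiset.card s)) (hsum : (s.map Prod.fst).sum = 0)
    (γ : C → ZMod ℓ) (hγ : ∀ z ∈ s, γ z.2 ≠ 0)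
    (hN : ∀ (χ : MulChar (ZMod ℓ) ℂ) (ψ : AddChar (ZMod ℓ) ℂ),
      orderOf χ = m → ψ ≠ 1 → (s.map fun z => gaussSum (χ ^ z.1.val) ψ).prod =
        (Fintype.card (ZMod ℓ) : ℂ) ^ (Multiset.card s / 2) *
        (s.map fun z => (χ ^ z.1.val) (γ z.2)).prod) :
    H916R2.IsHodge m (s.map Prod.fst) := by
  classical
  have hmz : NeZero m := ⟨by omega⟩
  refine ⟨?_, by rwa [Multiset.card_map], hsum, ?_⟩
  · intro h
    obtain ⟨z, hz, hz0⟩ := Multiset.mem_map.mp h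
    exact h0 z hz hz0
  intro t
  obtain ⟨k, _, _, φ, Γ, _, v, hv1, hv2, hv3⟩ := exists_val hℓ
  have hv : Above φ v := ⟨hv1, hv2, hv3⟩
  obtain ⟨χ1, hχ1, hχφ⟩ := exists_teich (ℓ := ℓ) φ
  obtain ⟨ζ, hζ⟩ : ∃ ζ : AI, IsPrimitiveRoot ζ ℓ := by
    have h1 := Complex.isPrimitiveRoot_exp ℓ hℓ.ne_zero
    have h2 : IsIntegral ℤ (Complex.exp (2 * Real.pi * Complex.I / ((ℓ : ℕ) : ℂ))) :=
      h1.isIntegral hℓ.pos
    exact ⟨⟨_, h2⟩, IsPrimitiveRoot.of_map_of_injective (f := algebraMap AI ℂ) h1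
      Subtype.val_injective⟩
  have hinj : Function.Injective (algebraMap AI ℂ) := Subtype.val_injective
  have hmdvd : m ∣ ℓ - 1 := by
    have h1 : ((ℓ - 1 : ℕ) : ZMod m) = 0 := by
      rw [Nat.cast_sub (by omega), hℓm]; simp
    exact (ZMod.natCast_eq_zero_iff _ _).mp h1
  obtain ⟨e, he⟩ := hmdvd
  have he0 : 0 < e := Nat.pos_of_ne_zero (by rintro rfl; rw [mul_zero] at he; omega)
  set τ : ℕ := (t : ZMod m).val with hτ
  have hτcop : τ.Coprime m := ZMod.val_coe_unit_coprime t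
  set χ : MulChar (ZMod ℓ) AI := (χ1 ^ e) ^ τ with hχ
  have hord1 : orderOf (χ1 ^ e) = m := by
    rw [orderOf_pow_of_dvd he0.ne' (by rw [hχ1, he]; exact dvd_mul_left e m), hχ1, he,
      Nat.mul_div_cancel _ he0]
  have hordχ : orderOf χ = m := by
    rw [hχ, Nat.Coprime.orderOf_pow (by rw [hord1]; exact hτcop.symm), hord1]
  set ψ := AddChar.zmodChar ℓ hζ.pow_eq_one with hψdef
  set χ' : MulChar (ZMod ℓ) ℂ := χ.ringHomComp (algebraMap AI ℂ) with hχ'
  set ψ' : AddChar (ZMod ℓ) ℂ := (algebraMap AI ℂ).toMonoidHom.compAddChar ψ with hψ'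
  have hordχ' : orderOf χ' = m := by
    rw [← hordχ]
    exact orderOf_injective (MulChar.ringHomCompHom (algebraMap AI ℂ))
      (MulChar.injective_ringHomComp hinj) χ
  have hψ1 : ψ' ≠ 1 := by
    intro h
    have h1 : ψ' 1 = 1 := by rw [h]; rfl
    have h2 : algebraMap AI ℂ (ψ 1) = 1 := h1
    rw [hψdef, AddChar.zmodChar_apply] at h2
    have : Fact (1 < ℓ) := ⟨hℓ.one_lt⟩
    rw [ZMod.val_one, pow_one] at h2
    exact hζ.ne_one hℓ.one_lt (hinj (by rw [h2, map_one]))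
  have h1 := hN χ' ψ' hordχ' hψ1
  have h2 := congrArg v h1
  rw [map_mul, map_pow, map_multiset_prod, map_multiset_prod, Multiset.map_map,
    Multiset.map_map] at h2
  set π := v (((ζ - 1 : AI)) : ℂ) with hπ
  have hg : ∀ z ∈ s, v (gaussSum (χ' ^ z.1.val) ψ') = π ^ (e * ((t : ZMod m) * z.1).val) := by
    intro z hz
    have e1 : gaussSum (χ' ^ z.1.val) ψ' = ((gaussSum (χ ^ z.1.val) ψ : AI) : ℂ) := by
      have : gaussSum (χ' ^ z.1.val) ψ' = algebraMap AI ℂ (gaussSum (χ ^ z.1.val) ψ) := by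
        unfold gaussSum
        rw [map_sum]
        refine sum_congr rfl fun x _ => ?_
        rw [map_mul, hχ', MulChar.ringHomComp_pow, MulChar.ringHomComp_apply]
        rfl
      rw [this]; rfl
    have e2 : χ ^ z.1.val = χ1 ^ (e * ((t : ZMod m) * z.1).val) := by
      rw [hχ, ← pow_mul, ← pow_mul, pow_eq_pow_iff_modEq, hχ1, he, ZMod.val_mul, mul_comm m e]
      exact (Nat.ModEq.mul_left' e (Nat.mod_modEq _ _)).symm
    have e3 : (t : ZMod m) * z.1 ≠ 0 := by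
      intro h
      exact h0 z hz ((t.isUnit.mul_right_eq_zero).mp h)
    have e4 : 0 < ((t : ZMod m) * z.1).val := Nat.pos_of_ne_zero
      (fun h => e3 ((ZMod.val_eq_zero _).mp h))
    have e5 := ZMod.val_lt ((t : ZMod m) * z.1)
    have e6 : e * ((t : ZMod m) * z.1).val ≤ e * (m - 1) := Nat.mul_le_mul_left e (by omega)
    have e7 : e * (m - 1) = ℓ - 1 - e := by
      rw [he, Nat.mul_sub, mul_one, mul_comm]
    rw [e1, e2]
    exact v_gauss hv hζ hχ1 hχφ hℓ3 _ (Nat.mul_pos he0 e4) (by omega)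
  have hcf : ∀ z ∈ s, v ((χ' ^ z.1.val) (γ z.2)) = 1 := by
    intro z hz
    have e1 : (χ' ^ z.1.val) (γ z.2) = (((χ ^ z.1.val) (γ z.2) : AI) : ℂ) := by
      rw [hχ', MulChar.ringHomComp_pow, MulChar.ringHomComp_apply]; rfl
    rw [e1]
    apply hv.root (n := orderOf (χ ^ z.1.val)) (orderOf_pos _).ne'
    apply mulChar_pow_one rfl
    exact hγ z hz
  have e1 : (s.map (v ∘ fun z => gaussSum (χ' ^ z.1.val) ψ')) =
      s.map fun z => π ^ (e * ((t : ZMod m) * z.1).val) := Multiset.map_congr rfl hg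
  have e2 : (s.map (v ∘ fun z => (χ' ^ z.1.val) (γ z.2))) = s.map fun _ => (1 : Γ) :=
    Multiset.map_congr rfl hcf
  rw [e1, e2, Multiset.map_const', Multiset.prod_replicate, one_pow, mul_one, ZMod.card] at h2
  have hprodpow : ∀ s : Multiset (ZMod m × C),
      (s.map fun z => π ^ (e * ((t : ZMod m) * z.1).val)).prod =
        π ^ (e * (s.map fun z => ((t : ZMod m) * z.1).val).sum) := by
    intro s
    induction s using Multiset.induction_on with
    | empty => simp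
    | cons a s ih =>
      rw [Multiset.map_cons, Multiset.prod_cons, ih, Multiset.map_cons, Multiset.sum_cons,
        ← pow_add, mul_add]
  rw [hprodpow] at h2
  -- the valuation of `ℓ`
  have hπ0 : π ≠ 0 := by
    rw [hπ, Valuation.ne_zero_iff]
    intro h0
    have h7 : (ζ : ℂ) = 1 := by
      have : ((ζ - 1 : AI) : ℂ) = (ζ : ℂ) - 1 := by push_cast; ring
      rw [this] at h0
      exact sub_eq_zero.mp h0
    exact hζ.ne_one hℓ.one_lt (Subtype.ext h7)
  have hπ1 : π < 1 := v_pi hv hζ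
  have hvℓ : v ((ℓ : ℂ)) = π ^ (ℓ - 1) := by
    refine le_antisymm (v_ell hv hζ) ?_
    have hprim : (AddChar.zmodChar ℓ hζ.pow_eq_one).IsPrimitive :=
      AddChar.zmodChar_primitive_of_primitive_root ℓ hζ
    have hne : χ1 ≠ 1 := by
      intro h; rw [h, orderOf_one] at hχ1; omega
    have h3 := gaussSum_mul_gaussSum_pow_orderOf_sub_one hne hprim
    rw [hχ1] at h3
    have h4 := congrArg (fun z : AI => v (z : ℂ)) h3
    push_cast at h4
    rw [map_mul, map_mul] at h4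
    have hneg : v ((χ1 (-1) : AI) : ℂ) = 1 := by
      apply hv.root (n := 2) (by norm_num)
      rw [← map_pow]
      have : ((-1 : ZMod ℓ)) ^ 2 = 1 := by ring
      rw [this, MulChar.map_one]
    rw [hneg, one_mul, ZMod.card, v_gauss_one hv hζ hχ1 hχφ hℓ3, show ℓ - 1 - 1 = ℓ - 2 by omega,
      v_gauss hv hζ hχ1 hχφ hℓ3 (ℓ - 2) (by omega) le_rfl, ← pow_succ',
      show ℓ - 2 + 1 = ℓ - 1 by omega] at h4
    exact h4.le
  rw [hvℓ, ← pow_mul] at h2
  have h3 := pow_right_injective₀ (zero_lt_iff.mpr hπ0) hπ1.ne h2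
  obtain ⟨c, hcard⟩ := heven
  rw [hcard, show (c + c) / 2 = c by omega, he] at h3
  have h4 : (s.map fun z => ((t : ZMod m) * z.1).val).sum = m * c := by
    have : e * (s.map fun z => ((t : ZMod m) * z.1).val).sum = e * (m * c) := by
      rw [h3]; ring
    exact Nat.eq_of_mul_eq_mul_left he0 this
  rw [Multiset.map_map, Multiset.card_map]
  have h5 : (s.map ((fun a => ((t : ZMod m) * a).val) ∘ Prod.fst)).sum = m * c := h4
  rw [h5, hcard]; ring

end Pool.Agent.H916L
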