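import Pool.Agent.H916L.Cheb
import Pool.Agent.H916L.Local
import Pool.Agent.H916L.Defs

/-!
# Rational classes over number fields
-/

set_option linter.unusedSectionVars false

namespace Pool.Agent.H916L

open Finset Pool.Agent.H916K Pool.Agent.H916R2 NumberField
open scoped TensorProduct

section
variable {k : Type} [Field k] [NumberField k]

lemma phi_ne_zero {ℓ : ℕ} [Fact ℓ.Prime] (φ : 𝓞 k →+* ZMod ℓ) {c : 𝓞 k} (hc : c ≠ 0)
    (h : Ideal.absNorm (Ideal.span {c}) < ℓ) : φ c ≠ 0 := by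
  intro h0
  have h1 := Ideal.absNorm_mem (Ideal.span {c})
  rw [Ideal.mem_span_singleton] at h1
  obtain ⟨d, hd⟩ := h1
  have h2 := congrArg φ hd
  rw [map_mul, h0, zero_mul, map_natCast] at h2
  have h3 := (ZMod.natCast_eq_zero_iff _ _).mp h2
  have h4 : Ideal.absNorm (Ideal.span {c}) ≠ 0 := by
    rw [Ne, Ideal.absNorm_eq_zero_iff, Ideal.span_singleton_eq_bot]
    exact hc
  exact absurd (Nat.le_of_dvd (Nat.pos_of_ne_zero h4) h3) (by omega)

lemma norm_le_sum {m : ℕ} {s : Multiset (ZMod m × 𝓞 k)} {z : ZMod m × 𝓞 k} (hz : z ∈ s) :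
    Ideal.absNorm (Ideal.span {z.2}) ≤ (s.map fun z => Ideal.absNorm (Ideal.span {z.2})).sum :=
  Multiset.single_le_sum (fun _ _ => Nat.zero_le _) _ (Multiset.mem_map_of_mem _ hz)

/-- **Hodge type** over number fields. -/
theorem hodge_over {m n : ℕ} [NeZero n] (hmn : m ∣ n) (hm : 2 ≤ m)
    (hk : IsField (k ⊗[ℚ] CyclotomicField n ℚ)) {s : Multiset (ZMod m × 𝓞 k)}
    (h0 : ∀ z ∈ s, z.1 ≠ 0) (heven : Even (Multiset.card s)) (hsum : (s.map Prod.fst).sum = 0)
    (hc : ∀ z ∈ s, z.2 ≠ 0) (hR : RationalOver k m s) :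
    H916R2.IsHodge m (s.map Prod.fst) := by
  classical
  obtain ⟨N, hN⟩ := hR
  obtain ⟨ℓ, hℓN, hℓ, hℓt, ⟨φ⟩⟩ := exists_prime_hom k hk (t := 1) (one_pow 2)
    (N + 3 + (s.map fun z => Ideal.absNorm (Ideal.span {z.2})).sum)
  have : Fact ℓ.Prime := ⟨hℓ⟩
  have hℓm : (ℓ : ZMod m) = 1 := by
    have h1 : ((ℓ : ℕ) : ZMod n) = ((1 : ℕ) : ZMod n) := by rw [hℓt]; simp
    have h2 := (ZMod.natCast_eq_natCast_iff _ _ _).mp h1
    have h3 := (ZMod.natCast_eq_natCast_iff _ _ _).mpr (h2.of_dvd hmn)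
    rw [h3, Nat.cast_one]
  have hrange : Nat.card φ.range = ℓ := by
    have h1 : φ.range = ⊤ := RingHom.range_eq_top.mpr (ZMod.ringHom_surjective φ)
    rw [h1]
    have h2 : Nat.card (⊤ : Subring (ZMod ℓ)) = Nat.card (ZMod ℓ) :=
      Nat.card_congr (Subring.topEquiv).toEquiv
    rw [h2, Nat.card_zmod]
  refine hodge_local hm hℓ (by omega) hℓm h0 heven hsum (fun c => φ c) ?_ ?_
  · intro z hz
    exact phi_ne_zero φ (hc z hz) (by have := norm_le_sum hz; omega)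
  · intro χ ψ hχ hψ
    exact hN ℓ (by omega) hℓ (ZMod ℓ) φ
      (by rw [hrange, hℓm, orderOf_one, pow_one, ZMod.card]) χ ψ hχ hψ

/-- **Parity** over number fields. -/
theorem even_over {m M q b : ℕ} (hm : m = M * q ^ b) (hM : 3 ≤ M) (hb : 0 < b) (hq : q.Prime)
    (hq2 : q ≠ 2) (hcop : M.Coprime q) (hk : IsField (k ⊗[ℚ] CyclotomicField (2 * m) ℚ))
    {s : Multiset (ZMod m × 𝓞 k)} (hc : ∀ z ∈ s, z.2 ≠ 0) (hR : RationalOver k m s) :
    Even (s.countP fun z => M ∣ z.1.val) := by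
  classical
  obtain ⟨N, hN⟩ := hR
  have hmpos : 0 < m := by rw [hm]; have := hq.pos; positivity
  have : NeZero (2 * m) := ⟨by omega⟩
  have h2m : 2 * m = 2 * M * q ^ b := by rw [hm]; ring
  have hcop' : (2 * M).Coprime (q ^ b) := by
    apply Nat.Coprime.pow_right
    apply Nat.Coprime.mul_left _ hcop
    exact (Nat.coprime_primes Nat.prime_two hq).mpr (fun h => hq2 h.symm)
  set r : ℕ := (Nat.chineseRemainder hcop' (2 * M - 1) 1 : ℕ) with hr
  have h1 : r ≡ 2 * M - 1 [MOD 2 * M] := (Nat.chineseRemainder hcop' (2 * M - 1) 1).2.1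
  have h2 : r ≡ 1 [MOD q ^ b] := (Nat.chineseRemainder hcop' (2 * M - 1) 1).2.2
  have h3 : r.Coprime (2 * m) := by
    rw [h2m]
    apply Nat.Coprime.mul_right
    · have h4 : (2 * M - 1).Coprime (2 * M) := by
        have : Nat.Coprime (2 * M - 1) (2 * M - 1 + 1) := (Nat.coprime_self_add_right).mpr (by simp)
        rwa [Nat.sub_add_cancel (by omega)] at this
      exact (Nat.ModEq.gcd_eq h1).trans h4
    · exact (Nat.ModEq.gcd_eq h2).trans (by simp)
  set t : (ZMod (2 * m))ˣ := ZMod.unitOfCoprime r h3 with ht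
  have htr : (t : ZMod (2 * m)) = (r : ZMod (2 * m)) := ZMod.coe_unitOfCoprime r h3
  have ht2 : t ^ 2 = 1 := by
    apply Units.ext
    push_cast
    rw [htr]
    have h5 : r ^ 2 ≡ 1 [MOD 2 * M * q ^ b] := by
      rw [← Nat.modEq_and_modEq_iff_modEq_mul hcop']
      constructor
      · have h6 : (2 * M - 1) ^ 2 = 2 * M * (2 * M - 2) + 1 := by
          obtain ⟨j, hj⟩ : ∃ j, 2 * M = j + 2 := ⟨2 * M - 2, by omega⟩
          rw [hj]
          have e1 : j + 2 - 1 = j + 1 := by omega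
          have e2 : j + 2 - 2 = j := by omega
          rw [e1, e2]; ring
        have h7 : r ^ 2 ≡ (2 * M - 1) ^ 2 [MOD 2 * M] := h1.pow 2
        rw [h6] at h7
        refine h7.trans ?_
        have h8 : 2 * M * (2 * M - 2) ≡ 0 [MOD 2 * M] :=
          (Nat.modEq_zero_iff_dvd).mpr (Dvd.intro _ rfl)
        simpa using h8.add_right 1
      · simpa using h2.pow 2
    rw [← h2m] at h5
    have := (ZMod.natCast_eq_natCast_iff _ _ _).mpr h5
    push_cast at this
    exact this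
  obtain ⟨ℓ, hℓN, hℓ, hℓt, ⟨φ⟩⟩ := exists_prime_hom k hk ht2
    (N + 3 + (s.map fun z => Ideal.absNorm (Ideal.span {z.2})).sum)
  have : Fact ℓ.Prime := ⟨hℓ⟩
  have hℓ2 := hℓ.two_le
  have hℓr : ℓ ≡ r [MOD 2 * M * q ^ b] := by
    rw [← h2m]
    rw [htr] at hℓt
    exact (ZMod.natCast_eq_natCast_iff _ _ _).mp hℓt
  have hℓM : 2 * M ∣ ℓ + 1 := by
    have h5 : ℓ ≡ 2 * M - 1 [MOD 2 * M] := (hℓr.of_mul_right _).trans h1
    have h6 : ℓ + 1 ≡ 2 * M - 1 + 1 [MOD 2 * M] := h5.add_right 1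
    rw [Nat.sub_add_cancel (by omega)] at h6
    exact (Nat.modEq_zero_iff_dvd).mp (h6.trans ((Nat.modEq_zero_iff_dvd).mpr dvd_rfl))
  have hqb : q ^ b ∣ ℓ - 1 := by
    have h5 : ℓ ≡ 1 [MOD q ^ b] := (hℓr.of_mul_left _).trans h2
    exact (Nat.modEq_iff_dvd' (by omega)).mp h5.symm
  have hMℓ : M ∣ ℓ + 1 := (Dvd.intro_left 2 rfl).trans hℓM
  have : Fintype (GaloisField ℓ 2) := Fintype.ofFinite _
  have hcard : Fintype.card (GaloisField ℓ 2) = ℓ ^ 2 := by
    rw [← Nat.card_eq_fintype_card]; exact GaloisField.card ℓ 2 (by norm_num)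
  have hfac : ℓ ^ 2 - 1 = (ℓ + 1) * (ℓ - 1) := by
    obtain ⟨k, rfl⟩ : ∃ k, ℓ = k + 1 := ⟨ℓ - 1, by omega⟩
    simp only [Nat.add_sub_cancel]
    have : (k + 1) ^ 2 = (k + 1 + 1) * k + 1 := by ring
    omega
  have hmdvd : m ∣ ℓ ^ 2 - 1 := by
    rw [hfac, hm]; exact Nat.mul_dvd_mul hMℓ hqb
  have hord : orderOf (ℓ : ZMod m) = 2 := by
    have : Fact (Nat.Prime 2) := ⟨Nat.prime_two⟩
    apply orderOf_eq_prime
    · have h1 : ((ℓ ^ 2 - 1 : ℕ) : ZMod m) = 0 := (ZMod.natCast_eq_zero_iff _ _).mpr hmdvd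
      rw [Nat.cast_sub (Nat.one_le_pow _ _ (by omega))] at h1
      push_cast at h1
      linear_combination h1
    · intro h1
      have h2 : ((ℓ - 1 : ℕ) : ZMod m) = 0 := by
        rw [Nat.cast_sub (by omega), h1]; simp
      have h3 : m ∣ ℓ - 1 := (ZMod.natCast_eq_zero_iff _ _).mp h2
      have h4 : M ∣ ℓ - 1 := (hm ▸ Dvd.intro _ rfl : M ∣ m).trans h3
      have h5 : M ∣ (ℓ + 1) - (ℓ - 1) := Nat.dvd_sub hMℓ h4
      have h6 : (ℓ + 1) - (ℓ - 1) = 2 := by omega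
      rw [h6] at h5
      have := Nat.le_of_dvd (by norm_num) h5
      omega
  set φ' : 𝓞 k →+* GaloisField ℓ 2 := (algebraMap (ZMod ℓ) (GaloisField ℓ 2)).comp φ with hφ'
  have hrange : Nat.card φ'.range = ℓ := by
    have h1 : φ'.range = (algebraMap (ZMod ℓ) (GaloisField ℓ 2)).range := by
      ext y
      simp only [RingHom.mem_range]
      constructor
      · rintro ⟨x, rfl⟩
        exact ⟨φ x, rfl⟩
      · rintro ⟨x, rfl⟩
        obtain ⟨e, rfl⟩ := ZMod.ringHom_surjective φ x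
        exact ⟨e, rfl⟩
    rw [h1]
    have h2 : Nat.card (ZMod ℓ) = Nat.card (algebraMap (ZMod ℓ) (GaloisField ℓ 2)).range :=
      Nat.card_congr (Equiv.ofInjective _ (algebraMap (ZMod ℓ) (GaloisField ℓ 2)).injective)
    rw [← h2, Nat.card_zmod]
  refine parity_local hm hM hb hq hq2 hcop hℓ hℓM hqb (fun c => φ' c) ?_ ?_
  · intro z hz
    have h1 : φ z.2 ≠ 0 := phi_ne_zero φ (hc z hz) (by have := norm_le_sum hz; omega)
    constructor
    · simp only [hφ', RingHom.comp_apply]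
      rw [Ne, map_eq_zero]
      exact h1
    · simp only [hφ', RingHom.comp_apply]
      rw [← map_pow, ZMod.pow_card_sub_one_eq_one h1, map_one]
  · intro χ ψ hχ hψ
    exact hN ℓ (by omega) hℓ (GaloisField ℓ 2) φ' (by rw [hrange, hord, hcard]) χ ψ hχ hψ

lemma countP_conv' {C : Type} {m M P : ℕ} [NeZero m] (hP : 0 < P) (hm : P * M = m)
    (s : Multiset (ZMod m × C)) :
    (s.countP fun z => M ∣ z.1.val) =
      ((s.map Prod.fst).countP fun z => ((P : ℕ) : ZMod m) * z = 0) := by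
  rw [Multiset.countP_map, ← Multiset.countP_eq_card_filter]
  apply Multiset.countP_congr rfl
  intro z _
  have h1 : ((P : ℕ) : ZMod m) * z.1 = ((P * z.1.val : ℕ) : ZMod m) := by
    push_cast; rw [ZMod.natCast_zmod_val]
  rw [h1, ZMod.natCast_eq_zero_iff]
  have : P * M ∣ P * z.1.val ↔ M ∣ z.1.val := Nat.mul_dvd_mul_iff_left hP
  rw [hm] at this
  exact propext this.symm

/-- **Rational classes over a number field**, degree with two odd prime factors. -/
theorem main_over {p q : ℕ} (hp : p.Prime) (hq : q.Prime) (hp2 : p ≠ 2) (hq2 : q ≠ 2)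
    (hpq : p ≠ q) (hleg : ¬ IsSquare ((q : ℕ) : ZMod p)) {a b c m : ℕ} (ha : 0 < a)
    (hb : 0 < b) (hc : c = 1 ∨ c = 2) (hm : c * (p ^ a * q ^ b) = m)
    (hk : IsField (k ⊗[ℚ] CyclotomicField (2 * m) ℚ)) {s : Multiset (ZMod m × 𝓞 k)}
    (hs : IsHodge m (s.map Prod.fst)) (hne : s ≠ 0) (hc0 : ∀ z ∈ s, z.2 ≠ 0)
    (hR : RationalOver k m s) : Generated m (fun _ => False) (s.map Prod.fst) := by
  have : Fact p.Prime := ⟨hp⟩
  have : Fact q.Prime := ⟨hq⟩
  have hcpos : 0 < c := by rcases hc with rfl | rfl <;> norm_num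
  have hm0 : 0 < m := by
    rw [← hm]; have := hp.pos; have := hq.pos; positivity
  have : NeZero m := ⟨hm0.ne'⟩
  have hq3 : 3 ≤ q := by have := hq.two_le; omega
  have hcop : (c * q ^ b).Coprime p := by
    apply Nat.Coprime.mul_left
    · rcases hc with rfl | rfl
      · exact Nat.coprime_one_left p
      · exact (Nat.coprime_primes Nat.prime_two hp).mpr (fun h => hp2 h.symm)
    · exact Nat.Coprime.pow_left b ((Nat.coprime_primes hq hp).mpr (fun h => hpq h.symm))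
  have hM : 3 ≤ c * q ^ b := by
    calc 3 ≤ q := hq3
      _ ≤ q ^ b := Nat.le_self_pow hb.ne' q
      _ ≤ c * q ^ b := Nat.le_mul_of_pos_left _ hcpos
  have h1 := even_over (m := m) (M := c * q ^ b) (q := p) (b := a) (by rw [← hm]; ring) hM ha
    hp hp2 hcop hk hc0 hR
  have hpa : 0 < p ^ a := pow_pos hp.pos a
  rw [countP_conv' hpa (by rw [← hm]; ring)] at h1
  have hleg' : legendreSym p q = -1 := by
    have hq0 : ((q : ℤ) : ZMod p) ≠ 0 := by
      push_cast; exact pq_ne hpq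
    rcases legendreSym.eq_one_or_neg_one p hq0 with h | h
    · exfalso
      apply hleg
      have := (legendreSym.eq_one_iff p hq0).mp h
      simpa using this
    · exact h
  refine structure_two hp2 hq2 hpq hleg' ha hb hc hm hs ?_ h1
  intro h
  exact hne (Multiset.map_eq_zero.mp h)

end

end Pool.Agent.H916L
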