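import Pool.Agent.H921R2.TatePole.Gram

/-!
# The number of factors of `K ⊗ L`, `L` normal, divides the degree of `K`
-/

set_option linter.unusedSectionVars false

open scoped TensorProduct

namespace Pool.Agent.H916L

open Pool.Agent.H921R2.TatePole

lemma mem_range_of_normal {A Ω : Type*} [Field A] [Algebra ℚ A] [Field Ω] [Algebra ℚ Ω]
    [hN : Normal ℚ A] (g g' : A →ₐ[ℚ] Ω) (a : A) : ∃ b, g b = g' a := by
  have hs : ((minpoly ℚ a).map (algebraMap ℚ A)).Splits := Normal.splits hN a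
  have h1 := hs.roots_map (g : A →+* Ω)
  rw [Polynomial.map_map] at h1
  have h2 : (g : A →+* Ω).comp (algebraMap ℚ A) = algebraMap ℚ Ω := g.comp_algebraMap
  rw [h2] at h1
  have hint := Normal.isIntegral hN a
  have h3 : g' a ∈ ((minpoly ℚ a).map (algebraMap ℚ Ω)).roots := by
    rw [Polynomial.mem_roots (Polynomial.map_ne_zero (minpoly.ne_zero hint)),
      Polynomial.IsRoot.def, Polynomial.eval_map, ← Polynomial.aeval_def,
      Polynomial.aeval_algHom_apply, minpoly.aeval, map_zero]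
  rw [h1] at h3
  obtain ⟨b, _, hb⟩ := Multiset.mem_map.mp h3
  exact ⟨b, hb⟩

section
variable (K L : Type) [Field K] [NumberField K] [Field L] [NumberField L]

/-- the map of `K ⊗ L` to an algebraic closure of `K` attached to a factor -/
lemma exists_hom (M : MaximalSpectrum (K ⊗[ℚ] L)) : ∃ f : K ⊗[ℚ] L →ₐ[K] AlgebraicClosure K,
    Module.finrank K (Fac K L M) = Module.finrank K f.range := by
  have hfin : Module.Finite K (Fac K L M) :=
    Module.Finite.of_surjective (Ideal.Quotient.mkₐ K M.asIdeal).toLinearMap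
      (Ideal.Quotient.mkₐ_surjective K M.asIdeal)
  have halg : Algebra.IsAlgebraic K (Fac K L M) := Algebra.IsAlgebraic.of_finite K _
  set i : Fac K L M →ₐ[K] AlgebraicClosure K := IsAlgClosed.lift with hi
  refine ⟨i.comp (Ideal.Quotient.mkₐ K M.asIdeal), ?_⟩
  have h1 : (i.comp (Ideal.Quotient.mkₐ K M.asIdeal)).range = i.range := by
    ext y
    simp only [AlgHom.mem_range]
    constructor
    · rintro ⟨x, rfl⟩
      exact ⟨_, rfl⟩
    · rintro ⟨x, rfl⟩
      obtain ⟨z, rfl⟩ := Ideal.Quotient.mkₐ_surjective K M.asIdeal x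
      exact ⟨z, rfl⟩
  rw [h1]
  exact (AlgEquiv.ofInjective i i.toRingHom.injective).toLinearEquiv.finrank_eq

lemma range_le [Normal ℚ L] (f f' : K ⊗[ℚ] L →ₐ[K] AlgebraicClosure K) :
    f'.range ≤ f.range := by
  rintro y ⟨x, rfl⟩
  change f' x ∈ f.range
  induction x using TensorProduct.induction_on with
  | zero => rw [map_zero]; exact Subalgebra.zero_mem _
  | tmul a b =>
    obtain ⟨b', hb'⟩ := mem_range_of_normal
      ((f.restrictScalars ℚ).comp (Algebra.TensorProduct.includeRight : L →ₐ[ℚ] K ⊗[ℚ] L))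
      ((f'.restrictScalars ℚ).comp (Algebra.TensorProduct.includeRight : L →ₐ[ℚ] K ⊗[ℚ] L)) b
    have h1 : f (1 ⊗ₜ b') = f' (1 ⊗ₜ b) := hb'
    have h2 : (a ⊗ₜ[ℚ] b : K ⊗[ℚ] L) = a • (1 ⊗ₜ b) := by
      rw [TensorProduct.smul_tmul', smul_eq_mul, mul_one]
    rw [h2, map_smul, ← h1, ← map_smul]
    exact ⟨_, rfl⟩
  | add x y hx hy => rw [map_add]; exact Subalgebra.add_mem _ hx hy

lemma finrank_fac [Normal ℚ L] (M M' : MaximalSpectrum (K ⊗[ℚ] L)) :
    Module.finrank ℚ (Fac K L M) = Module.finrank ℚ (Fac K L M') := by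
  obtain ⟨f, hf⟩ := exists_hom K L M
  obtain ⟨f', hf'⟩ := exists_hom K L M'
  have h1 : f.range = f'.range := le_antisymm (range_le K L f' f) (range_le K L f f')
  rw [← Module.finrank_mul_finrank ℚ K (Fac K L M), ← Module.finrank_mul_finrank ℚ K (Fac K L M'),
    hf, hf', h1]

lemma dvd_finrank_fac (M : MaximalSpectrum (K ⊗[ℚ] L)) :
    Module.finrank ℚ L ∣ Module.finrank ℚ (Fac K L M) := by
  let _ : Algebra L (Fac K L M) := ((Ideal.Quotient.mk M.asIdeal).comp
    (Algebra.TensorProduct.includeRight : L →ₐ[ℚ] K ⊗[ℚ] L).toRingHom).toAlgebra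
  exact ⟨_, (Module.finrank_mul_finrank ℚ L (Fac K L M)).symm⟩

/-- **The number of factors** of `K ⊗ L`, `L` normal, divides the degree of `K`. -/
theorem rk_dvd [Normal ℚ L] : Nat.card (MaximalSpectrum (K ⊗[ℚ] L)) ∣ Module.finrank ℚ K := by
  classical
  obtain ⟨M0⟩ : Nonempty (MaximalSpectrum (K ⊗[ℚ] L)) := inferInstance
  have h1 : Module.finrank ℚ (K ⊗[ℚ] L) =
      ∑ M : MaximalSpectrum (K ⊗[ℚ] L), Module.finrank ℚ (Fac K L M) := by
    rw [← Module.finrank_pi_fintype]
    have e := (IsArtinianRing.equivPi (K ⊗[ℚ] L)).toRingEquiv.toAddEquiv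
    exact (LinearEquiv.mk (LinearMap.mk e.toAddMonoidHom.toAddHom
      (fun c x => map_rat_smul e.toAddMonoidHom c x)) e.symm e.left_inv e.right_inv).finrank_eq
  rw [Finset.sum_congr rfl (fun M _ => finrank_fac K L M M0), Finset.sum_const, Finset.card_univ,
    smul_eq_mul, Module.finrank_tensorProduct] at h1
  obtain ⟨e, he⟩ := dvd_finrank_fac K L M0
  rw [he] at h1
  rw [Nat.card_eq_fintype_card]
  refine ⟨e, ?_⟩
  have hL : 0 < Module.finrank ℚ L := Module.finrank_pos
  apply Nat.eq_of_mul_eq_mul_right hL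
  rw [h1]; ring

end

end Pool.Agent.H916L
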