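import Pool.Agent.H916L.Main2
import Pool.Agent.H916K.MainFour

/-!
# Rational classes over number fields, degrees `2 ^ a * q ^ b`
-/

set_option linter.unusedSectionVars false

namespace Pool.Agent.H916L

open Finset Pool.Agent.H916K Pool.Agent.H916R2 NumberField
open scoped TensorProduct

/-- **Rational classes over a number field**, degree `2 ^ a * q ^ b`. -/
theorem main_four_over {k : Type} [Field k] [NumberField k] {q : ℕ} (hq : q.Prime) (hq2 : q ≠ 2)
    (hsq : ¬ IsSquare ((2 : ℕ) : ZMod q)) {a b m : ℕ} (ha : 2 ≤ a) (hb : 0 < b)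
    (hm : 2 ^ a * q ^ b = m) (hk : HasPrimes k (2 * m)) {s : Multiset (ZMod m × 𝓞 k)}
    (hs : IsHodge m (s.map Prod.fst)) (hne : s ≠ 0) (hc0 : ∀ z ∈ s, z.2 ≠ 0)
    (hR : RationalOver k m s) : Generated m (fun _ => False) (s.map Prod.fst) := by
  have : Fact q.Prime := ⟨hq⟩
  have hm0 : 0 < m := by
    rw [← hm]; have := hq.pos; positivity
  have : NeZero m := ⟨hm0.ne'⟩
  have hcop : (2 ^ a).Coprime q :=
    ((Nat.coprime_primes hq Nat.prime_two).mpr hq2).symm.pow_left a
  have hM : 3 ≤ 2 ^ a := by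
    calc 3 ≤ 2 ^ 2 := by norm_num
      _ ≤ 2 ^ a := Nat.pow_le_pow_right (by norm_num) ha
  have h1 := even_over2 (m := m) (M := 2 ^ a) (q := q) (b := b) hm.symm hM hb
    hq hq2 hcop hk hc0 hR
  have hpb : 0 < q ^ b := pow_pos hq.pos b
  rw [countP_conv' hpb (by rw [← hm]; ring)] at h1
  refine structure_four hq2 (leg_two hq2 hsq) ha hb hm hs ?_ h1
  intro h
  exact hne (Multiset.map_eq_zero.mp h)

end Pool.Agent.H916L
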